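import Mathlib
import Pool.Agent.H82.CpCp

set_option autoImplicit false

namespace Pool.Agent.Results.MP_5491ed_gt.SigmaCompactInvariant

theorem result : ∀ (X Y : Type) [TopologicalSpace X] [T35Space X] [TopologicalSpace Y] [T35Space Y],
    Nonempty ({g : {f : X → ℝ // Continuous f} → ℝ // Continuous g} ≃ₜ
      {g : {f : Y → ℝ // Continuous f} → ℝ // Continuous g}) → SigmaCompactSpace Y →
    SigmaCompactSpace X := by
  intro X Y _ _ _ _ ⟨e⟩ hY
  exact Pool.Agent.H82.CpCp.sigma e

end Pool.Agent.Results.MP_5491ed_gt.SigmaCompactInvariant
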